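import Pool.Agent.R341.SG.Stm

/-!
# Project SG (MP_2b9fb5_al): SG-CNT
-/

namespace Pool.Agent.R43.SG

open Finset Pool.Agent.R341.SG

namespace CntAux

/-- closure of a set of maps -/
def cl {n : ℕ} (Y : Finset (Fin n → Fin n)) : Subsemigroup (Function.End (Fin n)) :=
  Subsemigroup.closure {f : Function.End (Fin n) | (f : Fin n → Fin n) ∈ Y}

theorem mem_cl {n : ℕ} {Y : Finset (Fin n → Fin n)} {f : Fin n → Fin n} (hf : f ∈ Y) :
    (f : Function.End (Fin n)) ∈ cl Y :=
  Subsemigroup.subset_closure hf

theorem gen_cl {n : ℕ} {Y : Finset (Fin n → Fin n)} {f : Fin n → Fin n} (hf : Gen Y f) :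
    (f : Function.End (Fin n)) ∈ cl Y := by
  induction hf with
  | base f hf => exact mem_cl hf
  | comp f g _ _ h1 h2 => exact (cl Y).mul_mem h1 h2

theorem cl_le {n : ℕ} {Y : Finset (Fin n → Fin n)} {S : Subsemigroup (Function.End (Fin n))}
    (h : ∀ f ∈ Y, (f : Function.End (Fin n)) ∈ S) : cl Y ≤ S :=
  Subsemigroup.closure_le.2 h

theorem exists_indep {n : ℕ} (S : Subsemigroup (Function.End (Fin n))) :
    ∃ X : Finset (Fin n → Fin n), Indep X ∧ cl X = S := by
  classical
  obtain ⟨X, hX, hmin⟩ := ((univ : Finset (Finset (Fin n → Fin n))).filter fun X =>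
    cl X = S).exists_min_image Finset.card
    ⟨univ.filter fun f : Fin n → Fin n => (f : Function.End (Fin n)) ∈ S, by
      rw [mem_filter]
      refine ⟨mem_univ _, le_antisymm ?_ ?_⟩
      · apply cl_le
        intro f hf
        exact (mem_filter.1 hf).2
      · intro f hf
        exact mem_cl (mem_filter.2 ⟨mem_univ _, hf⟩)⟩
  rw [mem_filter] at hX
  refine ⟨X, ?_, hX.2⟩
  intro f hf hgen
  have h1 : cl (X.erase f) = S := by
    rw [← hX.2]
    apply le_antisymm
    · apply cl_le
      intro g hg
      exact mem_cl (mem_of_mem_erase hg)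
    · apply cl_le
      intro g hg
      by_cases hgf : g = f
      · subst hgf
        exact gen_cl hgen
      · exact mem_cl (mem_erase.2 ⟨hgf, hg⟩)
  have h2 := hmin (X.erase f) (mem_filter.2 ⟨mem_univ _, h1⟩)
  have h3 : (X.erase f).card < X.card := card_erase_lt_of_mem hf
  omega

theorem count {α : Type} [Fintype α] [DecidableEq α] (t d : ℝ) (M : ℕ) (ht : 0 < t) (hd : 1 < d)
    (hM : 1 / t ≤ d ^ M) :
    (((univ : Finset (Finset α)).filter fun X => M * X.card ≤ Fintype.card α).card : ℝ) ≤
      ((1 + t) * d) ^ Fintype.card α := by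
  have h1 : ∀ X ∈ (univ : Finset (Finset α)).filter fun X => M * X.card ≤ Fintype.card α,
      (1 : ℝ) ≤ t ^ X.card * d ^ Fintype.card α := by
    intro X hX
    have h2 : M * X.card ≤ Fintype.card α := (mem_filter.1 hX).2
    have h3 : d ^ (M * X.card) ≤ d ^ Fintype.card α := pow_le_pow_right₀ hd.le h2
    have h4 : (1 / t) ^ X.card ≤ (d ^ M) ^ X.card := pow_le_pow_left₀ (by positivity) hM _
    have h5 : t ^ X.card * (1 / t) ^ X.card = 1 := by
      rw [← mul_pow, mul_one_div, div_self ht.ne', one_pow]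
    calc (1 : ℝ) = t ^ X.card * (1 / t) ^ X.card := h5.symm
      _ ≤ t ^ X.card * (d ^ M) ^ X.card := mul_le_mul_of_nonneg_left h4 (by positivity)
      _ = t ^ X.card * d ^ (M * X.card) := by rw [pow_mul]
      _ ≤ t ^ X.card * d ^ Fintype.card α := mul_le_mul_of_nonneg_left h3 (by positivity)
  calc (((univ : Finset (Finset α)).filter fun X => M * X.card ≤ Fintype.card α).card : ℝ)
      = ∑ X ∈ (univ : Finset (Finset α)).filter fun X => M * X.card ≤ Fintype.card α, (1 : ℝ) := by
        simp
    _ ≤ ∑ X ∈ (univ : Finset (Finset α)).filter fun X => M * X.card ≤ Fintype.card α,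
        t ^ X.card * d ^ Fintype.card α := sum_le_sum h1
    _ ≤ ∑ X : Finset α, t ^ X.card * d ^ Fintype.card α := by
        apply sum_le_sum_of_subset_of_nonneg (filter_subset _ _)
        intro X _ _
        positivity
    _ = ((1 + t) * d) ^ Fintype.card α := by
        rw [← sum_mul, mul_pow]
        congr 1
        have := Fintype.sum_pow_mul_eq_add_pow α t (1 : ℝ)
        simp only [one_pow, mul_one] at this
        rw [this, add_comm]

end CntAux

open CntAux in
theorem cnt : Pool.Agent.R341.SG.SCNT := by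
  classical
  intro c hc hI
  set d : ℝ := Real.sqrt c with hdd
  have hd : 1 < d := by
    rw [hdd, Real.lt_sqrt (by norm_num)]
    simpa using hc
  have hdc : d * d = c := Real.mul_self_sqrt (by linarith)
  set t : ℝ := (d - 1) / 2 with ht
  have ht0 : 0 < t := by rw [ht]; linarith
  have ht1 : 1 + t < d := by rw [ht]; linarith
  obtain ⟨m, hm⟩ := pow_unbounded_of_one_lt (1 / t) hd
  set M : ℕ := m + 1 with hM
  have hMd : 1 / t ≤ d ^ M := by
    refine hm.le.trans (pow_le_pow_right₀ hd.le (by omega))
  obtain ⟨n0, hn0⟩ := hI (1 / M) (by positivity)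
  refine ⟨max n0 1, fun n hn he => ?_⟩
  have hn1 : n0 ≤ n := (le_max_left _ _).trans hn
  have hn2 : 1 ≤ n := (le_max_right _ _).trans hn
  have hcardα : Fintype.card (Fin n → Fin n) = n ^ n := by simp
  choose g hgI hg using (exists_indep (n := n))
  have hmem : ∀ S, g S ∈ (univ : Finset (Finset (Fin n → Fin n))).filter fun X =>
      M * X.card ≤ Fintype.card (Fin n → Fin n) := by
    intro S
    rw [mem_filter]
    refine ⟨mem_univ _, ?_⟩
    have h1 := hn0 n hn1 he (g S) (hgI S)
    rw [hcardα]
    have hM0 : (0 : ℝ) < M := by positivity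
    have h2 : (M : ℝ) * ((g S).card : ℝ) ≤ (n : ℝ) ^ n := by
      calc (M : ℝ) * ((g S).card : ℝ) ≤ M * (1 / M * (n : ℝ) ^ n) :=
            mul_le_mul_of_nonneg_left h1 hM0.le
        _ = (n : ℝ) ^ n := by field_simp
    exact_mod_cast h2
  have hle : Nat.card {S : Subsemigroup (Function.End (Fin n)) //
      (S : Set (Function.End (Fin n))).Nonempty} ≤
      ((univ : Finset (Finset (Fin n → Fin n))).filter fun X =>
        M * X.card ≤ Fintype.card (Fin n → Fin n)).card := by
    have h1 : Function.Injective (fun S : {S : Subsemigroup (Function.End (Fin n)) //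
        (S : Set (Function.End (Fin n))).Nonempty} =>
        (⟨g S.1, hmem S.1⟩ : {X // X ∈ (univ : Finset (Finset (Fin n → Fin n))).filter fun X =>
          M * X.card ≤ Fintype.card (Fin n → Fin n)})) := by
      intro S T h
      apply Subtype.ext
      have h2 : g S.1 = g T.1 := congrArg Subtype.val h
      rw [← hg S.1, ← hg T.1, h2]
    have h3 := Nat.card_le_card_of_injective _ h1
    refine h3.trans (le_of_eq ?_)
    rw [Nat.card_eq_fintype_card, Fintype.card_coe]
  have hcount := count (α := Fin n → Fin n) t d M ht0 hd hMd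
  rw [hcardα] at hcount hle
  have hN : n ^ n ≠ 0 := by positivity
  calc ((Nat.card {S : Subsemigroup (Function.End (Fin n)) //
      (S : Set (Function.End (Fin n))).Nonempty} : ℕ) : ℝ) ≤ _ := Nat.cast_le.2 hle
    _ ≤ ((1 + t) * d) ^ (n ^ n) := hcount
    _ < (d * d) ^ (n ^ n) := by
        apply pow_lt_pow_left₀ _ (by positivity) hN
        exact mul_lt_mul_of_pos_right ht1 (by linarith)
    _ = c ^ (n ^ n) := by rw [hdc]

end Pool.Agent.R43.SG
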