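import Pool.Agent.R341.SG.Stm

/-!
# Project SG (MP_2b9fb5_al): SG-ORD
-/

namespace Pool.Agent.R43.SG

open Finset

theorem ord : Pool.Agent.R341.SG.SORD := by
  classical
  intro V _ _ R hrefl htrans h hh ω hω h6 hpos
  set H : ℝ := ∑ x, h x with hH
  obtain ⟨C, hC, hmin⟩ := ((univ : Finset (Finset V)).filter fun C =>
      (∀ x ∈ C, ∀ y, R x y → y ∈ C) ∧ H / 3 ≤ ∑ x ∈ C, h x).exists_min_image Finset.card
    ⟨univ, by
      rw [mem_filter]
      refine ⟨mem_univ _, fun x _ y _ => mem_univ _, ?_⟩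
      rw [← hH]
      linarith⟩
  rw [mem_filter] at hC
  obtain ⟨_, hup, hw⟩ := hC
  refine ⟨C, hup, hw, ?_⟩
  by_contra hgt
  push Not at hgt
  have hne : C.Nonempty := by
    by_contra hemp
    rw [not_nonempty_iff_eq_empty] at hemp
    rw [hemp, sum_empty] at hgt
    linarith
  obtain ⟨x, hx, hxmin⟩ := C.exists_min_image (fun x => (C.filter fun z => R z x).card) hne
  have hmin2 : ∀ y ∈ C, R y x → R x y := by
    intro y hy hyx
    have hsub : (C.filter fun z => R z y) ⊆ (C.filter fun z => R z x) := by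
      intro z hz
      rw [mem_filter] at hz ⊢
      exact ⟨hz.1, htrans z y x hz.2 hyx⟩
    have heq := eq_of_subset_of_card_le hsub (hxmin y hy)
    have hxm : x ∈ C.filter fun z => R z x := mem_filter.2 ⟨hx, hrefl x⟩
    rw [← heq, mem_filter] at hxm
    exact hxm.2
  set K : Finset V := C.filter fun y => R y x with hK
  have hKC : K ⊆ C := filter_subset _ _
  have hKw : ∑ y ∈ K, h y ≤ ω := by
    apply hω
    intro y hy z hz
    rw [hK, mem_filter] at hy hz
    exact htrans y x z hy.2 (hmin2 z hz.1 hz.2)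
  have hsum : ∑ y ∈ C \ K, h y + ∑ y ∈ K, h y = ∑ y ∈ C, h y := sum_sdiff hKC
  have hmem : C \ K ∈ (univ : Finset (Finset V)).filter fun C =>
      (∀ x ∈ C, ∀ y, R x y → y ∈ C) ∧ H / 3 ≤ ∑ x ∈ C, h x := by
    rw [mem_filter]
    refine ⟨mem_univ _, ?_, by linarith⟩
    intro y hy z hyz
    rw [mem_sdiff] at hy ⊢
    refine ⟨hup y hy.1 z hyz, ?_⟩
    intro hz
    rw [hK, mem_filter] at hz
    exact hy.2 (mem_filter.2 ⟨hy.1, htrans y z x hyz hz.2⟩)
  have hle := hmin (C \ K) hmem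
  have hxK : x ∈ K := mem_filter.2 ⟨hx, hrefl x⟩
  have hlt : (C \ K).card < C.card := by
    apply card_lt_card
    refine ⟨sdiff_subset, ?_⟩
    intro hs
    have := hs hx
    rw [mem_sdiff] at this
    exact this.2 hxK
  omega

end Pool.Agent.R43.SG
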