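import Pool.Agent.R341.SG.Stm

/-!
# Project SG (MP_2b9fb5_al): SG-PH
-/

namespace Pool.Agent.R43.SG

open Finset Pool.Agent.R341.SG

namespace PHAux

theorem onto_card_le {n : ℕ} {I J : Finset (Fin n)} (h : I.card = J.card) :
    (onto I).card ≤ (onto J).card := by
  classical
  let e : {x // x ∈ I} ≃ {x // x ∈ J} := Finset.equivOfCardEq h
  let π : Equiv.Perm (Fin n) := e.extendSubtype
  have hπ : I.image π = J := by
    apply eq_of_subset_of_card_le
    · intro y hy
      obtain ⟨x, hx, rfl⟩ := mem_image.1 hy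
      exact e.extendSubtype_mem x hx
    · rw [card_image_of_injective _ π.injective]
      exact h.ge
  apply card_le_card_of_injOn (fun f => π ∘ f)
  · intro f hf
    have h1 : im f = I := (mem_filter.1 (mem_coe.1 hf)).2
    refine mem_coe.2 (mem_filter.2 ⟨mem_univ _, ?_⟩)
    rw [← hπ, ← h1]
    unfold im
    rw [image_image]
  · intro f _ g _ hfg
    funext x
    exact π.injective (congrFun hfg x)

theorem onto_card_eq {n : ℕ} {I J : Finset (Fin n)} (h : I.card = J.card) :
    (onto I).card = (onto J).card :=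
  le_antisymm (onto_card_le h) (onto_card_le h.symm)

/-- identity or generated -/
def GI {n : ℕ} (Y : Finset (Fin n → Fin n)) (v : Fin n → Fin n) : Prop := v = id ∨ Gen Y v

theorem GI.comp {n : ℕ} {Y : Finset (Fin n → Fin n)} {v w : Fin n → Fin n} (hv : GI Y v)
    (hw : GI Y w) : GI Y (v ∘ w) := by
  rcases hv with rfl | hv
  · exact hw
  · rcases hw with rfl | hw
    · exact Or.inr hv
    · exact Or.inr (Gen.comp _ _ hv hw)

theorem GI.iter {n : ℕ} {Y : Finset (Fin n → Fin n)} {v : Fin n → Fin n} (hv : GI Y v)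
    (k : ℕ) : GI Y (v^[k]) := by
  induction k with
  | zero => exact Or.inl rfl
  | succ k ih =>
    rw [Function.iterate_succ]
    exact ih.comp hv

theorem Gen.mono {n : ℕ} {Y Z : Finset (Fin n → Fin n)} (hYZ : Y ⊆ Z) {v : Fin n → Fin n}
    (hv : Gen Y v) : Gen Z v := by
  induction hv with
  | base f hf => exact Gen.base f (hYZ hf)
  | comp f g _ _ h1 h2 => exact Gen.comp f g h1 h2

theorem GI.mono {n : ℕ} {Y Z : Finset (Fin n → Fin n)} (hYZ : Y ⊆ Z) {v : Fin n → Fin n}
    (hv : GI Y v) : GI Z v := by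
  rcases hv with h | h
  · exact Or.inl h
  · exact Or.inr (Gen.mono hYZ h)

theorem reach_map {n r : ℕ} {X : Finset (Fin n → Fin n)} {I I' : Finset (Fin n)}
    (h : Reach X r I I') : ∃ v, GI (X.filter fun f => r < rk f) v ∧ I.image v = I' := by
  rcases h with rfl | ⟨_, _, w, hw, hI⟩
  · exact ⟨id, Or.inl rfl, image_id⟩
  · exact ⟨w, Or.inr hw, hI⟩

theorem exists_left_inv {n : ℕ} {I J : Finset (Fin n)} (hc : I.card = J.card)
    {Y : Finset (Fin n → Fin n)} {v w : Fin n → Fin n} (hv : GI Y v) (hw : GI Y w)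
    (hvI : I.image v = J) (hwJ : J.image w = I) :
    ∃ u, GI Y u ∧ ∀ x ∈ I, u (v x) = x := by
  classical
  set h : Fin n → Fin n := w ∘ v with hh
  have hvinj : Set.InjOn v (I : Set (Fin n)) := by
    apply card_image_iff.1
    rw [hvI, hc]
  have hwinj : Set.InjOn w (J : Set (Fin n)) := by
    apply card_image_iff.1
    rw [hwJ, hc]
  have hvm : ∀ x ∈ I, v x ∈ J := fun x hx => hvI ▸ mem_image_of_mem v hx
  have hwm : ∀ x ∈ J, w x ∈ I := fun x hx => hwJ ▸ mem_image_of_mem w hx
  have hm : Set.MapsTo h (I : Set (Fin n)) (I : Set (Fin n)) :=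
    fun x hx => hwm _ (hvm x hx)
  have hi : Set.InjOn h (I : Set (Fin n)) := by
    intro x hx y hy hxy
    exact hvinj hx hy (hwinj (hvm x hx) (hvm y hy) hxy)
  obtain ⟨a, b, hne, hab⟩ := Finite.exists_ne_map_eq_of_infinite (fun k : ℕ => h^[k])
  -- wlog a < b
  have key : ∀ a b : ℕ, a < b → h^[a] = h^[b] → ∃ N : ℕ, ∀ x ∈ I, h^[N + 1] x = x := by
    intro a b hlt hab
    refine ⟨b - a - 1, ?_⟩
    intro x hx
    have hN : b - a - 1 + 1 = b - a := by omega
    rw [hN]
    apply hi.iterate hm a (hm.iterate (b - a) hx) hx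
    rw [← Function.iterate_add_apply]
    have hb : a + (b - a) = b := by omega
    rw [hb, ← hab]
  have hN : ∃ N : ℕ, ∀ x ∈ I, h^[N + 1] x = x := by
    rcases lt_or_gt_of_ne hne with h1 | h1
    · exact key a b h1 hab
    · exact key b a h1 hab.symm
  obtain ⟨N, hN⟩ := hN
  refine ⟨h^[N] ∘ w, ((hw.comp hv).iter N).comp hw, ?_⟩
  intro x hx
  have := hN x hx
  rw [Function.iterate_succ_apply] at this
  exact this

end PHAux

open PHAux in
theorem ph : Pool.Agent.R341.SG.SPH := by
  classical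
  intro n r X hX a0 ha0 U hU hR
  by_contra hcon
  push Not at hcon
  have hne : U.Nonempty := by
    by_contra hemp
    rw [not_nonempty_iff_eq_empty] at hemp
    rw [hemp] at hcon
    simp at hcon
    linarith
  obtain ⟨I1, hI1⟩ := hne
  have hch : ∀ I : Finset (Fin n), ∃ v, I ∈ U → (GI (X.filter fun f => r < rk f) v ∧
      I.image v = I1) := by
    intro I
    by_cases hI : I ∈ U
    · obtain ⟨v, hv⟩ := reach_map (hR I hI I1 hI1)
      exact ⟨v, fun _ => hv⟩
    · exact ⟨id, fun h => absurd h hI⟩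
  choose v hv using hch
  -- the pigeonhole
  set E : Finset (Fin n → Fin n) := X.filter fun e => im e ∈ U with hE
  have hcard : E.card = ∑ I ∈ U, (X.filter fun e => im e = I).card := by
    rw [card_eq_sum_card_fiberwise (f := im) (s := E) (t := U)
      (fun e he => (mem_filter.1 he).2)]
    apply sum_congr rfl
    intro I hI
    congr 1
    ext e
    simp only [hE, mem_filter]
    constructor
    · rintro ⟨⟨h1, _⟩, h2⟩
      exact ⟨h1, h2⟩
    · rintro ⟨h1, h2⟩
      exact ⟨⟨h1, h2 ▸ hI⟩, h2⟩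
  have hpos : ∀ I ∈ U, 0 < ((onto I).card : ℝ) := by
    intro I hI
    by_contra hn
    have h0 : ((onto I).card : ℝ) = 0 := le_antisymm (not_lt.1 hn) (by positivity)
    have := (hU I hI).2
    rw [dn, h0, div_zero] at this
    linarith
  have hcE : ((onto I1).card : ℝ) < (E.card : ℝ) := by
    have h1 : (E.card : ℝ) = ∑ I ∈ U, dn X I * ((onto I).card : ℝ) := by
      rw [hcard]
      push_cast
      apply sum_congr rfl
      intro I hI
      rw [dn, div_mul_cancel₀ _ (hpos I hI).ne']
    have h2 : ∑ I ∈ U, a0 * ((onto I1).card : ℝ) ≤ ∑ I ∈ U, dn X I * ((onto I).card : ℝ) := by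
      apply sum_le_sum
      intro I hI
      have h3 : (onto I).card = (onto I1).card :=
        onto_card_eq (by rw [(hU I hI).1, (hU I1 hI1).1])
      rw [h3]
      exact mul_le_mul_of_nonneg_right (hU I hI).2 (by positivity)
    rw [h1]
    refine lt_of_lt_of_le ?_ h2
    rw [sum_const, nsmul_eq_mul, ← mul_assoc]
    have := hpos I1 hI1
    nlinarith
  obtain ⟨e, he, e', he', hee, heq⟩ := exists_ne_map_eq_of_card_lt_of_maps_to
    (s := E) (t := onto I1) (f := fun e => v (im e) ∘ e) (by exact_mod_cast hcE) (by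
      intro e he
      have h1 := (hv (im e) (mem_filter.1 he).2).2
      refine mem_coe.2 (mem_filter.2 ⟨mem_univ _, ?_⟩)
      refine Eq.trans ?_ h1
      unfold im
      rw [image_image])
  rw [hE, mem_filter] at he he'
  -- the two images have the same size
  set Y : Finset (Fin n → Fin n) := X.filter fun f => r < rk f with hY
  obtain ⟨w, hwG, hw⟩ := reach_map (hR I1 hI1 (im e') he'.2)
  obtain ⟨hvG, hvI⟩ := hv (im e') he'.2
  obtain ⟨hvG2, hvI2⟩ := hv (im e) he.2
  obtain ⟨u, huG, hu⟩ := exists_left_inv (I := im e') (J := I1)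
    (by rw [(hU _ he'.2).1, (hU I1 hI1).1]) hvG hwG hvI hw
  have hform : e' = (u ∘ v (im e)) ∘ e := by
    funext x
    have h1 : u (v (im e') (e' x)) = e' x :=
      hu (e' x) (mem_image_of_mem e' (mem_univ x))
    have h2 : v (im e) (e x) = v (im e') (e' x) := congrFun heq x
    show e' x = u (v (im e) (e x))
    rw [h2, h1]
  have hsub : Y ⊆ X.erase e' := by
    intro f hf
    rw [hY, mem_filter] at hf
    rw [mem_erase]
    refine ⟨?_, hf.1⟩
    rintro rfl
    have h1 := (hU _ he'.2).1
    have h2 := hf.2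
    rw [rk, h1] at h2
    exact lt_irrefl _ h2
  have hGu : GI (X.erase e') (u ∘ v (im e)) := (huG.comp hvG2).mono hsub
  rcases hGu with h | h
  · rw [h] at hform
    exact hee hform.symm
  · apply hX e' he'.1
    have h3 : Gen (X.erase e') e := Gen.base e (mem_erase.2 ⟨hee, he.1⟩)
    have h4 := Gen.comp _ _ h h3
    rw [← hform] at h4
    exact h4

end Pool.Agent.R43.SG
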